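import Pool.Agent.H10.CkA

namespace Pool.Agent.Results.MP_a92470_an.Yes

open Pool.Agent.H10.Ck

theorem result {X : Type*} [Nonempty X] (k s : X → X → ℂ) (hk : IsKernel k)
    (hc : IsCertificate k s)
    (hmin : ∀ A : Set X, A.Nonempty → IsMinCertificate (res k A) (res s A)) :
    IsCP k ∧ ∃ δ : X → ℂ, ∀ x y, k x y = δ x * star (δ y) * s x y :=
  main hk hc hmin

end Pool.Agent.Results.MP_a92470_an.Yes
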